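import Pool.Agent.Run7.h203.SC.Rs

/-!
# Ruzsa-Szemeredi graphs: semilinear graphs, equality queries and comparisons

Let the edges of the graph `G` on `n` vertices be the disjoint union of `t` induced matchings with
`r` edges each. The question asks whether `r ≥ c n` and `t ≥ n ^ ε` is possible for all large `n`.

1. Two players know one vertex each; they may ask whether a label of the first vertex equals a label
   of the second one, or whether it is smaller; at the end they accept the pairs of a relation without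
   induced matchings with more than `κ` edges. The weight `w` of such a protocol is at most
   `(2 l + 1) ^ q` for `q` queries if the numbers which are compared are less than `2 ^ l`, `l ≥ 1`;
   for equality queries it is at most `3 ^ q`. If a random protocol of this kind never
   accepts a pair of different non-adjacent vertices and accepts each edge with probability at least
   `p`, then `p * r * √t` is at most `4 n` times the mean of `w * √κ`.
2. If the adjacency of different vertices is a Boolean combination of `s` comparisons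
   `f_j(u) < g_j(v)` of real numbers, as in semilinear graphs (where `f_j(u) < g_j(v)` are linear
   inequalities in the coordinates of the vertices, which are points of some `ℝ ^ d`), then
   `r * √t ≤ 4 (2 log₂ n + 5) ^ s * n`.
3. So the question has a negative answer for semilinear graphs of bounded complexity: for given `s`,
   `c` and `ε`, none of them has `r ≥ c n` and `t ≥ n ^ ε` if `n` is large.
4. If `r ≥ c n` and `t ≥ n ^ ε`, the mean in 1 is at least `(c / 4) p n ^ (ε / 2)`; so one
   needs at least `(ε / 2) log_3 n - O(1)` equality queries if the leaves are simple.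

Proof. Between two sets `X` and `Y` a leaf accepts at most `κ` pairs from each of the `t`
induced matchings, and at most `|X| |Y|` pairs, hence at most `√(t κ) (|X| + |Y|)` pairs. Then
induction on the protocol: for a query `f u = g v` the pairs with equal labels lie in disjoint
blocks, and for the others one takes a random two-colouring of the labels; the pairs with
`f u < g v` lie in `l` families of disjoint blocks.
-/

set_option autoImplicit false

namespace Run7.h203.SC.LProt

variable {V : Type}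

/-- the largest number of queries on a run -/
def cost : LProt V → ℕ
  | leaf _ => 0
  | query _ _ _ yes no => max yes.cost no.cost + 1
  | less _ _ _ yes no => max yes.cost no.cost + 1

/-- the numbers which are compared are less than `2 ^ bits`, and `bits` is at least one -/
def bits : LProt V → ℕ
  | leaf _ => 1
  | query _ _ _ yes no => max yes.bits no.bits
  | less l _ _ yes no => max l (max yes.bits no.bits)

lemma one_le_bits : ∀ T : LProt V, 1 ≤ T.bits
  | leaf _ => le_rfl
  | query _ _ _ yes _ => (one_le_bits yes).trans (le_max_left _ _)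
  | less _ _ _ yes _ => (one_le_bits yes).trans ((le_max_left _ _).trans (le_max_right _ _))

lemma wt_le_aux (b : ℕ) (hb : 1 ≤ b) : ∀ T : LProt V, T.bits ≤ b → T.wt ≤ (2 * b + 1) ^ T.cost
  | leaf _, _ => by simp [wt, cost]
  | query _ _ _ yes no, h => by
    have h1 := wt_le_aux b hb yes ((le_max_left _ _).trans h)
    have h2 := wt_le_aux b hb no ((le_max_right _ _).trans h)
    have h3 : (2 * b + 1) ^ yes.cost ≤ (2 * b + 1) ^ max yes.cost no.cost :=
      Nat.pow_le_pow_right (by omega) (le_max_left _ _)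
    have h4 : (2 * b + 1) ^ no.cost ≤ (2 * b + 1) ^ max yes.cost no.cost :=
      Nat.pow_le_pow_right (by omega) (le_max_right _ _)
    simp only [wt, cost]
    rw [pow_succ, mul_comm ((2 * b + 1) ^ max yes.cost no.cost)]
    calc yes.wt + 2 * no.wt ≤ 3 * (2 * b + 1) ^ max yes.cost no.cost := by omega
      _ ≤ (2 * b + 1) * (2 * b + 1) ^ max yes.cost no.cost := Nat.mul_le_mul_right _ (by omega)
  | less l _ _ yes no, h => by
    have hl : l ≤ b := (le_max_left _ _).trans h
    have h1 := wt_le_aux b hb yes ((le_max_left _ _).trans ((le_max_right _ _).trans h))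
    have h2 := wt_le_aux b hb no ((le_max_right _ _).trans ((le_max_right _ _).trans h))
    have h3 : (2 * b + 1) ^ yes.cost ≤ (2 * b + 1) ^ max yes.cost no.cost :=
      Nat.pow_le_pow_right (by omega) (le_max_left _ _)
    have h4 : (2 * b + 1) ^ no.cost ≤ (2 * b + 1) ^ max yes.cost no.cost :=
      Nat.pow_le_pow_right (by omega) (le_max_right _ _)
    simp only [wt, cost]
    rw [pow_succ, mul_comm ((2 * b + 1) ^ max yes.cost no.cost)]
    calc l * yes.wt + (l + 1) * no.wt ≤ b * (2 * b + 1) ^ max yes.cost no.cost +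
          (b + 1) * (2 * b + 1) ^ max yes.cost no.cost :=
          Nat.add_le_add (Nat.mul_le_mul hl (h1.trans h3))
            (Nat.mul_le_mul (by omega) (h2.trans h4))
      _ = (2 * b + 1) * (2 * b + 1) ^ max yes.cost no.cost := by ring

lemma wt_le (T : LProt V) : T.wt ≤ (2 * T.bits + 1) ^ T.cost :=
  wt_le_aux _ T.one_le_bits T le_rfl

end Run7.h203.SC.LProt

namespace Pool.Agent.Results.MP_c44c3f_co.SemilinearGraphs

open Run7.h203.SC

/-- powers of logarithms are small -/
lemma log_small (s : ℕ) {c ε : ℝ} (hc : 0 < c) (hε : 0 < ε) : ∃ n₀ : ℕ, 1 ≤ n₀ ∧ ∀ n : ℕ, n₀ ≤ n →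
    4 * (2 * (Nat.log 2 n : ℝ) + 5) ^ s < c * (n : ℝ) ^ (ε / 2) := by
  set a : ℝ := ε / (4 * ((s : ℝ) + 1)) with ha
  have ha0 : 0 < a := by positivity
  have hl2 : 0 < Real.log 2 := Real.log_pos (by norm_num)
  set K : ℝ := 2 / (a * Real.log 2) + 5 with hK
  have hK0 : 0 < K := by positivity
  have hlim : Filter.Tendsto (fun n : ℕ => (n : ℝ) ^ (ε / 4)) Filter.atTop Filter.atTop :=
    (tendsto_rpow_atTop (by positivity)).comp tendsto_natCast_atTop_atTop
  obtain ⟨n₀, hn₀⟩ := (hlim.eventually_gt_atTop (4 * K ^ s / c)).exists_forall_of_atTop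
  refine ⟨max n₀ 1, le_max_right _ _, ?_⟩
  intro n hn
  have hn1 : 1 ≤ n := (le_max_right _ _).trans hn
  have hnR : (1 : ℝ) ≤ n := by exact_mod_cast hn1
  have hn0 : (0 : ℝ) < n := by linarith
  have h1 := hn₀ n ((le_max_left _ _).trans hn)
  have h2 : (Nat.log 2 n : ℝ) ≤ (n : ℝ) ^ a / a / Real.log 2 := by
    have e1 : (Nat.log 2 n : ℝ) ≤ Real.logb 2 n := Real.natLog_le_logb n 2
    have e2 : Real.logb 2 n = Real.log n / Real.log 2 := rfl
    have e3 := Real.log_le_rpow_div hn0.le ha0
    rw [e2] at e1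
    exact e1.trans (div_le_div_of_nonneg_right e3 hl2.le)
  have h3 : (1 : ℝ) ≤ (n : ℝ) ^ a := Real.one_le_rpow hnR ha0.le
  have h4 : 2 * (Nat.log 2 n : ℝ) + 5 ≤ K * (n : ℝ) ^ a := by
    have e1 : K * (n : ℝ) ^ a = 2 * ((n : ℝ) ^ a / a / Real.log 2) + 5 * (n : ℝ) ^ a := by
      rw [hK]
      field_simp
    rw [e1]
    linarith
  have h5 : (2 * (Nat.log 2 n : ℝ) + 5) ^ s ≤ K ^ s * (n : ℝ) ^ (ε / 4) := by
    calc (2 * (Nat.log 2 n : ℝ) + 5) ^ s ≤ (K * (n : ℝ) ^ a) ^ s :=
          pow_le_pow_left₀ (by positivity) h4 _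
      _ = K ^ s * (n : ℝ) ^ (a * s) := by
          rw [mul_pow, ← Real.rpow_natCast ((n : ℝ) ^ a), ← Real.rpow_mul hn0.le]
      _ ≤ K ^ s * (n : ℝ) ^ (ε / 4) := by
          apply mul_le_mul_of_nonneg_left _ (by positivity)
          apply Real.rpow_le_rpow_of_exponent_le hnR
          rw [ha, div_mul_eq_mul_div, div_le_div_iff₀ (by positivity) (by norm_num)]
          have : (0 : ℝ) ≤ s := Nat.cast_nonneg _
          nlinarith
  have h6 : (n : ℝ) ^ (ε / 2) = (n : ℝ) ^ (ε / 4) * (n : ℝ) ^ (ε / 4) := by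
    rw [← Real.rpow_add hn0]
    congr 1
    ring
  have h7 : 0 < (n : ℝ) ^ (ε / 4) := by positivity
  rw [div_lt_iff₀ hc] at h1
  calc 4 * (2 * (Nat.log 2 n : ℝ) + 5) ^ s ≤ 4 * (K ^ s * (n : ℝ) ^ (ε / 4)) := by linarith
    _ = (4 * K ^ s) * (n : ℝ) ^ (ε / 4) := by ring
    _ < ((n : ℝ) ^ (ε / 4) * c) * (n : ℝ) ^ (ε / 4) := mul_lt_mul_of_pos_right h1 h7
    _ = c * (n : ℝ) ^ (ε / 2) := by rw [h6]; ring

lemma sqrt_ge {n t ε : ℝ} (hn : 0 < n) (h : n ^ ε ≤ t) : n ^ (ε / 2) ≤ √t := by
  have h1 := Real.sqrt_le_sqrt h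
  have h2 : √(n ^ ε) = n ^ (ε / 2) := by
    rw [Real.sqrt_eq_rpow, ← Real.rpow_mul hn.le]
    congr 1
    ring
  rwa [h2] at h1

theorem result :
    -- (1) random protocols with equality queries and comparisons
    ((∀ (V : Type) (T : LProt V), T.wt ≤ (2 * T.bits + 1) ^ T.cost) ∧
      ∀ (V : Type) [Fintype V] (G : SimpleGraph V) (r t : ℕ), IsRS G r t →
      ∀ (p : ℝ) (N : ℕ) (T : Fin N → LProt V) (κ : Fin N → ℕ) (q : Fin N → ℝ),
        (∀ i, 0 ≤ q i) → (∀ i, (T i).Leaves (NoMatching (κ i))) →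
        (∀ i u v, u ≠ v → (T i).Accepts u v → G.Adj u v) →
        (∀ u v, G.Adj u v → p ≤ open Classical in ∑ i, if (T i).Accepts u v then q i else 0) →
        p * (r * √t) ≤ 4 * Fintype.card V * ∑ i, q i * ((T i).wt * √(κ i))) ∧
    -- (2) semilinear graphs
    (∀ (V : Type) [Fintype V] (G : SimpleGraph V) (r t : ℕ), IsRS G r t →
      ∀ (s : ℕ) (f g : Fin s → V → ℝ) (φ : (Fin s → Prop) → Prop),
        (∀ u v, u ≠ v → (G.Adj u v ↔ φ (fun j => f j u < g j v))) →
        r * √t ≤ 4 * (2 * (Nat.log 2 (Fintype.card V) : ℝ) + 5) ^ s * Fintype.card V) ∧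
    -- (3) the negated form of the question for semilinear graphs
    (∀ (s : ℕ) (c ε : ℝ), 0 < c → 0 < ε → ∃ n₀ : ℕ, ∀ (V : Type) [Fintype V] (G : SimpleGraph V)
      (r t : ℕ), n₀ ≤ Fintype.card V → IsRS G r t → c * Fintype.card V ≤ r →
      (Fintype.card V : ℝ) ^ ε ≤ t → ∀ (f g : Fin s → V → ℝ) (φ : (Fin s → Prop) → Prop),
        ¬ ∀ u v, u ≠ v → (G.Adj u v ↔ φ (fun j => f j u < g j v))) ∧
    -- (4) the graphs asked for in the question
    (∀ (c ε : ℝ), 0 < c → 0 < ε → ∀ (V : Type) [Fintype V] (G : SimpleGraph V) (r t : ℕ),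
      0 < Fintype.card V → IsRS G r t → c * Fintype.card V ≤ r → (Fintype.card V : ℝ) ^ ε ≤ t →
      ∀ (p : ℝ) (N : ℕ) (T : Fin N → LProt V) (κ : Fin N → ℕ) (q : Fin N → ℝ), 0 ≤ p →
        (∀ i, 0 ≤ q i) → (∀ i, (T i).Leaves (NoMatching (κ i))) →
        (∀ i u v, u ≠ v → (T i).Accepts u v → G.Adj u v) →
        (∀ u v, G.Adj u v → p ≤ open Classical in ∑ i, if (T i).Accepts u v then q i else 0) →
        c / 4 * (p * (Fintype.card V : ℝ) ^ (ε / 2)) ≤ ∑ i, q i * ((T i).wt * √(κ i))) := by
  have r1 : ∀ (V : Type) [Fintype V] (G : SimpleGraph V) (r t : ℕ), IsRS G r t →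
      ∀ (p : ℝ) (N : ℕ) (T : Fin N → LProt V) (κ : Fin N → ℕ) (q : Fin N → ℝ),
        (∀ i, 0 ≤ q i) → (∀ i, (T i).Leaves (NoMatching (κ i))) →
        (∀ i u v, u ≠ v → (T i).Accepts u v → G.Adj u v) →
        (∀ u v, G.Adj u v → p ≤ open Classical in ∑ i, if (T i).Accepts u v then q i else 0) →
        p * (r * √t) ≤ 4 * Fintype.card V * ∑ i, q i * ((T i).wt * √(κ i)) := by
    intro V _ G r t h p N T κ q hq hκ hT hp
    exact rs_protocols h N T κ q hκ hq hT p (fun u v huv => by convert hp u v huv)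
  refine ⟨⟨fun V T => T.wt_le, r1⟩, ?_, ?_, ?_⟩
  · intro V _ G r t h s f g φ hG
    exact rs_semilinear h s f g φ hG
  · intro s c ε hc hε
    obtain ⟨n₀, hn₀, hlog⟩ := log_small s hc hε
    refine ⟨n₀, ?_⟩
    intro V _ G r t hn h hr ht f g φ hG
    have hn1 : (0 : ℝ) < Fintype.card V := by
      have : 1 ≤ Fintype.card V := hn₀.trans hn
      exact_mod_cast this
    have h1 := rs_semilinear h s f g φ hG
    have h2 := hlog _ hn
    have h3 := sqrt_ge hn1 ht
    have h4 : (c * Fintype.card V) * (Fintype.card V : ℝ) ^ (ε / 2) ≤ r * √t :=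
      mul_le_mul hr h3 (by positivity) (Nat.cast_nonneg _)
    have h5 : (Fintype.card V : ℝ) * (4 * (2 * (Nat.log 2 (Fintype.card V) : ℝ) + 5) ^ s) <
        (Fintype.card V : ℝ) * (c * (Fintype.card V : ℝ) ^ (ε / 2)) :=
      mul_lt_mul_of_pos_left h2 hn1
    have h6 := h4.trans h1
    linarith
  · intro c ε hc hε V _ G r t hn h hr ht p N T κ q hp hq hκ hT hpT
    have hn1 : (0 : ℝ) < Fintype.card V := by exact_mod_cast hn
    have h1 := r1 V G r t h p N T κ q hq hκ hT hpT
    have h3 := sqrt_ge hn1 ht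
    have h4 : (c * Fintype.card V) * (Fintype.card V : ℝ) ^ (ε / 2) ≤ r * √t :=
      mul_le_mul hr h3 (by positivity) (Nat.cast_nonneg _)
    have h5 := mul_le_mul_of_nonneg_left h4 hp
    have h6 : (Fintype.card V : ℝ) * (c / 4 * (p * (Fintype.card V : ℝ) ^ (ε / 2))) ≤
        (Fintype.card V : ℝ) * ∑ i, q i * ((T i).wt * √(κ i)) := by
      linarith
    exact le_of_mul_le_mul_left h6 hn1

end Pool.Agent.Results.MP_c44c3f_co.SemilinearGraphs
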